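import Mathlib

/-!
# Anti-concentration for sums of independent steps with two opposite large values
-/

set_option autoImplicit false
set_option maxHeartbeats 1000000

open Finset

namespace Pool.Agent.Q245.Rw

/-! ### the middle binomial coefficient -/

theorem central_sq (j : ℕ) : (Nat.centralBinom j) ^ 2 * (2 * j + 1) ≤ 4 ^ (2 * j) := by
  induction j with
  | zero => simp
  | succ j ih =>
    have h := Nat.succ_mul_centralBinom_succ j
    have h1 : (j + 1) ^ 2 * (Nat.centralBinom (j + 1)) ^ 2 =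
        4 * (2 * j + 1) ^ 2 * (Nat.centralBinom j) ^ 2 := by
      rw [← mul_pow, h]
      ring
    have h2 : (j + 1) ^ 2 * ((Nat.centralBinom (j + 1)) ^ 2 * (2 * (j + 1) + 1)) ≤
        (j + 1) ^ 2 * 4 ^ (2 * (j + 1)) := by
      calc (j + 1) ^ 2 * ((Nat.centralBinom (j + 1)) ^ 2 * (2 * (j + 1) + 1)) =
            ((j + 1) ^ 2 * (Nat.centralBinom (j + 1)) ^ 2) * (2 * (j + 1) + 1) := by ring
        _ = 4 * (2 * j + 1) * (2 * j + 3) * ((Nat.centralBinom j) ^ 2 * (2 * j + 1)) := by
            rw [h1]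
            ring
        _ ≤ 4 * (2 * j + 1) * (2 * j + 3) * 4 ^ (2 * j) := Nat.mul_le_mul_left _ ih
        _ = 4 * ((2 * j + 1) * (2 * j + 3)) * 4 ^ (2 * j) := by ring
        _ ≤ 4 * (4 * (j + 1) ^ 2) * 4 ^ (2 * j) := by
            have h3 : (2 * j + 1) * (2 * j + 3) ≤ 4 * (j + 1) ^ 2 := by nlinarith
            exact Nat.mul_le_mul_right _ (Nat.mul_le_mul_left _ h3)
        _ = (j + 1) ^ 2 * 4 ^ (2 * (j + 1)) := by
            rw [show 2 * (j + 1) = 2 * j + 2 by ring, pow_add]
            ring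
    exact Nat.le_of_mul_le_mul_left h2 (by positivity)

theorem choose_mid_sq (k : ℕ) : (k.choose (k / 2)) ^ 2 * (k + 1) ≤ 4 ^ k := by
  rcases Nat.even_or_odd' k with ⟨j, rfl | rfl⟩
  · have h := central_sq j
    rw [Nat.centralBinom_eq_two_mul_choose] at h
    rw [show 2 * j / 2 = j by omega]
    exact h
  · have h := central_sq (j + 1)
    have h1 : Nat.centralBinom (j + 1) = 2 * (2 * j + 1).choose j := by
      rw [Nat.centralBinom_eq_two_mul_choose, show 2 * (j + 1) = (2 * j + 1) + 1 by ring,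
        Nat.choose_succ_succ]
      have := Nat.choose_symm_half j
      rw [this]
      ring
    rw [show (2 * j + 1) / 2 = j by omega]
    rw [h1] at h
    have h2 : 4 * (((2 * j + 1).choose j) ^ 2 * (2 * j + 1 + 1)) ≤ 4 * 4 ^ (2 * j + 1) := by
      calc 4 * (((2 * j + 1).choose j) ^ 2 * (2 * j + 1 + 1)) ≤
            (2 * (2 * j + 1).choose j) ^ 2 * (2 * (j + 1) + 1) := by
            have : 4 * (((2 * j + 1).choose j) ^ 2 * (2 * j + 1 + 1)) =
              (2 * (2 * j + 1).choose j) ^ 2 * (2 * j + 2) := by ring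
            rw [this]
            exact Nat.mul_le_mul_left _ (by omega)
        _ ≤ 4 ^ (2 * (j + 1)) := h
        _ = 4 * 4 ^ (2 * j + 1) := by
            rw [show 2 * (j + 1) = 2 * j + 1 + 1 by ring, pow_succ]
            ring
    exact Nat.le_of_mul_le_mul_left h2 (by norm_num)

/-! ### `k` independent signs -/

/-- the number of subsets `A` of `{0, …, k - 1}` with `|t + (k - 2 |A|) M| ≤ T` -/
noncomputable def S (M T : ℝ) (k : ℕ) (t : ℝ) : ℕ := by
  classical
  exact ((range k).powerset.filter fun A => |t + ((k : ℝ) - 2 * A.card) * M| ≤ T).card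

theorem S_succ (M T : ℝ) (k : ℕ) (t : ℝ) :
    S M T (k + 1) t = S M T k (t + M) + S M T k (t - M) := by
  classical
  unfold S
  simp only [card_filter]
  rw [range_add_one, sum_powerset_insert (by simp)]
  congr 1
  · refine sum_congr rfl fun A _ => ?_
    congr 2
    push_cast
    congr 1
    ring
  · refine sum_congr rfl fun A hA => ?_
    have hk : k ∉ A := fun h => by
      have := mem_powerset.1 hA h
      simp at this
    rw [card_insert_of_notMem hk]
    congr 2
    push_cast
    congr 1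
    ring

theorem S_zero (M T : ℝ) (t : ℝ) : S M T 0 t = if |t| ≤ T then 1 else 0 := by
  classical
  unfold S
  simp only [range_zero, powerset_empty, card_filter, sum_singleton, card_empty]
  simp

theorem S_le {M T : ℝ} (hM : T < M) (k : ℕ) (t : ℝ) : S M T k t ≤ k.choose (k / 2) := by
  classical
  unfold S
  set P := (range k).powerset.filter fun A => |t + ((k : ℝ) - 2 * A.card) * M| ≤ T with hP
  rcases P.eq_empty_or_nonempty with h | ⟨A, hA⟩
  · rw [h]
    simp
  · have hA2 := (mem_filter.1 hA).2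
    have hsub : P ⊆ powersetCard A.card (range k) := by
      intro B hB
      rw [mem_powersetCard]
      refine ⟨mem_powerset.1 (mem_filter.1 hB).1, ?_⟩
      have hB2 := (mem_filter.1 hB).2
      by_contra hne
      have h1 : (1 : ℝ) ≤ |(B.card : ℝ) - A.card| := by
        have h2 : (1 : ℤ) ≤ |(B.card : ℤ) - A.card| := by
          apply Int.one_le_abs
          intro h3
          apply hne
          omega
        exact_mod_cast h2
      have h2 : |((B.card : ℝ) - A.card) * (2 * M)| ≤ 2 * T := by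
        have e : ((B.card : ℝ) - A.card) * (2 * M) =
            (t + ((k : ℝ) - 2 * A.card) * M) - (t + ((k : ℝ) - 2 * B.card) * M) := by ring
        rw [e]
        refine (abs_sub _ _).trans ?_
        linarith
      have hT0 : 0 ≤ T := (abs_nonneg _).trans hA2
      rw [abs_mul, abs_of_pos (by linarith : (0 : ℝ) < 2 * M)] at h2
      nlinarith
    calc P.card ≤ (powersetCard A.card (range k)).card := card_le_card hsub
      _ = k.choose A.card := by rw [card_powersetCard, card_range]
      _ ≤ _ := Nat.choose_le_middle _ _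

theorem S_real {M T : ℝ} (hM : T < M) (k : ℕ) (t : ℝ) :
    (S M T k t : ℝ) ≤ 2 ^ k / Real.sqrt (k + 1) := by
  have h1 : (S M T k t : ℝ) ≤ (k.choose (k / 2) : ℝ) := by exact_mod_cast S_le hM k t
  refine h1.trans ?_
  have hk : (0 : ℝ) < (k : ℝ) + 1 := by positivity
  rw [le_div_iff₀ (Real.sqrt_pos.2 hk)]
  have h2 : ((k.choose (k / 2) : ℝ) * Real.sqrt (k + 1)) ^ 2 ≤ ((2 : ℝ) ^ k) ^ 2 := by
    rw [mul_pow, Real.sq_sqrt hk.le]
    have h3 : ((k.choose (k / 2) : ℝ)) ^ 2 * (k + 1) ≤ 4 ^ k := by exact_mod_cast choose_mid_sq k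
    have h4 : ((2 : ℝ) ^ k) ^ 2 = 4 ^ k := by
      rw [← pow_mul, mul_comm, pow_mul]
      norm_num
    rw [h4]
    exact h3
  exact le_of_sq_le_sq h2 (by positivity)

/-! ### the recursion -/

/-- the supersolution -/
theorem super {V x y : ℝ} (hV : 2 ≤ V) (hy : 1 ≤ y) (hx : x = 1 / (2 * V)) :
    2 / Real.sqrt (y + 1) + (V - 2) / Real.sqrt y ≤ V / Real.sqrt (y + x) := by
  have hV0 : 0 < V := by linarith
  have hx0 : 0 < x := by rw [hx]; positivity
  have hy0 : 0 < y := by linarith
  set p := Real.sqrt y with hp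
  set q := Real.sqrt (y + 1) with hq
  set r := Real.sqrt (y + x) with hr
  have hp0 : 0 < p := Real.sqrt_pos.2 hy0
  have hq0 : 0 < q := Real.sqrt_pos.2 (by linarith)
  have hr0 : 0 < r := Real.sqrt_pos.2 (by linarith)
  have hp2 : p ^ 2 = y := Real.sq_sqrt hy0.le
  have hq2 : q ^ 2 = y + 1 := Real.sq_sqrt (by linarith)
  have hr2 : r ^ 2 = y + x := Real.sq_sqrt (by linarith)
  have hpr : p ≤ r := Real.sqrt_le_sqrt (by linarith)
  have hqp : q ≤ 3 / 2 * p := by
    apply le_of_sq_le_sq _ (by positivity)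
    rw [mul_pow, hq2, hp2]
    nlinarith
  have h1 : V / p - V / r ≤ 1 / (4 * p ^ 3) := by
    have e1 : (r - p) * (r + p) = x := by nlinarith
    have e2 : r - p ≤ x / (2 * p) := by
      rw [le_div_iff₀ (by positivity), ← e1]
      exact mul_le_mul_of_nonneg_left (by linarith) (by linarith)
    have e3 : V / p - V / r = V * (r - p) / (p * r) := by
      field_simp
    rw [e3]
    calc V * (r - p) / (p * r) ≤ V * (x / (2 * p)) / (p * p) := by
          gcongr
      _ = 1 / (4 * p ^ 3) := by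
          rw [hx]
          field_simp
          ring
  have h2 : 1 / (4 * p ^ 3) ≤ 2 / p - 2 / q := by
    have e1 : (q - p) * (q + p) = 1 := by nlinarith
    have hqp1 : p < q := Real.sqrt_lt_sqrt hy0.le (by linarith)
    have e2 : 2 / 5 / p ≤ q - p := by
      rw [div_le_iff₀ hp0]
      nlinarith
    have e3 : 2 / p - 2 / q = 2 * (q - p) / (p * q) := by
      field_simp
    rw [e3]
    calc 1 / (4 * p ^ 3) ≤ 2 * (2 / 5 / p) / (p * (3 / 2 * p)) := by
          rw [div_le_div_iff₀ (by positivity) (by positivity)]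
          have e4 : 2 * (2 / 5 / p) * (4 * p ^ 3) = 16 / 5 * p ^ 2 := by
            field_simp
            ring
          rw [e4]
          nlinarith [sq_nonneg p]
      _ ≤ 2 * (q - p) / (p * q) := by
          gcongr
  have h3 : 2 / q + (V - 2) / p = V / p - (2 / p - 2 / q) := by ring
  rw [h3]
  linarith

variable {V : Type} [Fintype V]

theorem sum_cons {n : ℕ} (F : (Fin (n + 1) → V) → ℝ) :
    ∑ w : Fin (n + 1) → V, F w = ∑ v : V, ∑ w : Fin n → V, F (Fin.cons v w) := by
  rw [← Fintype.sum_prod_type' (f := fun (v : V) (w : Fin n → V) => F (Fin.cons v w))]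
  exact (Fintype.sum_equiv (Fin.consEquiv fun _ => V) _ _ fun _ => rfl).symm

/-- the recursion -/
theorem rec_bound {φ : V → ℝ} {M T : ℝ} (hM : T < M) {v₀ v₁ : V} (h01 : v₀ ≠ v₁)
    (h0 : φ v₀ = M) (h1 : φ v₁ = -M) (n : ℕ) : ∀ (k : ℕ) (t : ℝ),
    ∑ w : Fin n → V, (S M T k (t + ∑ i, φ (w i)) : ℝ) ≤
      2 ^ k * (Fintype.card V : ℝ) ^ n / Real.sqrt (k + 1 + n * (1 / (2 * Fintype.card V))) := by
  classical
  have hcardN : 2 ≤ Fintype.card V := by
    rw [← Finset.card_pair h01]
    exact card_le_univ _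
  have hcard : (2 : ℝ) ≤ (Fintype.card V : ℝ) := by exact_mod_cast hcardN
  induction n with
  | zero =>
    intro k t
    simp only [univ_unique, sum_singleton, univ_eq_empty, sum_empty, add_zero, pow_zero, mul_one,
      Nat.cast_zero, zero_mul]
    exact S_real hM k t
  | succ n ih =>
    intro k t
    rw [sum_cons]
    set c : ℝ := (Fintype.card V : ℝ) with hc
    set x : ℝ := 1 / (2 * c) with hx
    have hx0 : 0 < x := by rw [hx]; positivity
    have e1 : ∀ v : V, ∑ w : Fin n → V, (S M T k (t + ∑ i, φ ((Fin.cons v w : Fin (n + 1) → V) i)) : ℝ)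
        = ∑ w : Fin n → V, (S M T k ((t + φ v) + ∑ i, φ (w i)) : ℝ) := by
      intro v
      refine sum_congr rfl fun w _ => ?_
      rw [Fin.sum_univ_succ]
      simp only [Fin.cons_zero, Fin.cons_succ]
      rw [add_assoc]
    simp only [e1]
    have e2 : ∑ v : V, ∑ w : Fin n → V, (S M T k ((t + φ v) + ∑ i, φ (w i)) : ℝ) =
        (∑ v ∈ ({v₀, v₁} : Finset V), ∑ w : Fin n → V, (S M T k ((t + φ v) + ∑ i, φ (w i)) : ℝ)) +
        ∑ v ∈ ({v₀, v₁} : Finset V)ᶜ, ∑ w : Fin n → V, (S M T k ((t + φ v) + ∑ i, φ (w i)) : ℝ) :=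
      (sum_add_sum_compl _ _).symm
    rw [e2, sum_pair h01, h0, h1]
    have e3 : ∑ w : Fin n → V, (S M T k ((t + M) + ∑ i, φ (w i)) : ℝ) +
        ∑ w : Fin n → V, (S M T k ((t + -M) + ∑ i, φ (w i)) : ℝ) =
        ∑ w : Fin n → V, (S M T (k + 1) (t + ∑ i, φ (w i)) : ℝ) := by
      rw [← sum_add_distrib]
      refine sum_congr rfl fun w _ => ?_
      rw [S_succ]
      push_cast
      congr 3
      · ring
      · ring
    rw [e3]
    have b1 := ih (k + 1) t
    have b2 : ∑ v ∈ ({v₀, v₁} : Finset V)ᶜ,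
        ∑ w : Fin n → V, (S M T k ((t + φ v) + ∑ i, φ (w i)) : ℝ) ≤
        (c - 2) * (2 ^ k * c ^ n / Real.sqrt (k + 1 + n * x)) := by
      refine (sum_le_card_nsmul _ _ _ fun v _ => ih k (t + φ v)).trans ?_
      rw [nsmul_eq_mul, card_compl, card_pair h01]
      have : ((Fintype.card V - 2 : ℕ) : ℝ) = c - 2 := by
        rw [Nat.cast_sub hcardN]
        push_cast
        rfl
      rw [this]
    have hy : (1 : ℝ) ≤ (k : ℝ) + 1 + n * x := by
      have : (0 : ℝ) ≤ n * x := by positivity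
      have : (0 : ℝ) ≤ k := by positivity
      linarith
    have b3 := super hcard hy hx
    have b1' : ∑ w : Fin n → V, (S M T (k + 1) (t + ∑ i, φ (w i)) : ℝ) ≤
        2 ^ k * c ^ n * (2 / Real.sqrt ((k : ℝ) + 1 + n * x + 1)) := by
      refine b1.trans (le_of_eq ?_)
      push_cast
      rw [pow_succ, show (k : ℝ) + 1 + 1 + n * x = (k : ℝ) + 1 + n * x + 1 by ring]
      ring
    calc _ ≤ 2 ^ k * c ^ n * (2 / Real.sqrt ((k : ℝ) + 1 + n * x + 1)) +
          (c - 2) * (2 ^ k * c ^ n / Real.sqrt (k + 1 + n * x)) := add_le_add b1' b2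
      _ = 2 ^ k * c ^ n * (2 / Real.sqrt ((k : ℝ) + 1 + n * x + 1) +
          (c - 2) / Real.sqrt ((k : ℝ) + 1 + n * x)) := by ring
      _ ≤ 2 ^ k * c ^ n * (c / Real.sqrt ((k : ℝ) + 1 + n * x + x)) :=
          mul_le_mul_of_nonneg_left b3 (by positivity)
      _ = _ := by
          push_cast
          rw [pow_succ, show (k : ℝ) + 1 + n * x + x = (k : ℝ) + 1 + (n + 1) * x by ring]
          ring

/-- **Anti-concentration**: if two steps of `V` have the values `M` and `- M` with `M > T`, then at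
most `|V|^n / (1 + n / (2 |V|))^(1/2)` of the `n`-tuples of steps have a sum in `[-T, T]`. -/
theorem anti {φ : V → ℝ} {M T : ℝ} (hM : T < M) {v₀ v₁ : V} (h01 : v₀ ≠ v₁)
    (h0 : φ v₀ = M) (h1 : φ v₁ = -M) (n : ℕ) :
    (Nat.card {w : Fin n → V // |∑ i, φ (w i)| ≤ T} : ℝ) ≤
      (Fintype.card V : ℝ) ^ n / Real.sqrt (1 + n * (1 / (2 * Fintype.card V))) := by
  classical
  have h := rec_bound hM h01 h0 h1 n 0 0
  simp only [zero_add, S_zero, pow_zero, one_mul, Nat.cast_zero] at h
  refine le_trans (le_of_eq ?_) h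
  rw [Nat.card_eq_fintype_card, Fintype.card_subtype, card_filter]
  push_cast
  rfl

end Pool.Agent.Q245.Rw
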