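import Pool.Agent.Q245.Rw.Anti
import Pool.Agent.Q213.SM.Geo

/-!
# Random products of small matrices and the Shimura map
-/

set_option autoImplicit false
set_option maxHeartbeats 1000000

open Complex Matrix.SpecialLinearGroup MatrixGroups Finset

namespace Pool.Agent.Q245.Rw

open Pool.Agent.TH133.SH Pool.Agent.Q213.SM

variable {N : ℕ} {a : ℕ → ℤ} {Ω₁ Ω₂ : ℂ}

/-- the matrices in `Γ₀(N)` with entries at most `N ^ 2` -/
def Sm (N : ℕ) : Type := {g : SL(2, ℤ) // InG N g ∧ Bounded ((N : ℤ) ^ 2) g}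

/-- the product of a word -/
def prd {n : ℕ} (w : Fin n → Sm N) : SL(2, ℤ) := (List.ofFn fun i => (w i).1).prod

/-- the coordinates of `H(g)` are at most `X` -/
def Good (a : ℕ → ℤ) (Ω₁ Ω₂ : ℂ) (g : SL(2, ℤ)) (X : ℝ) : Prop :=
  CoordBound a Ω₁ Ω₂ (g 0 0) (g 0 1) (g 1 0) (g 1 1) X

theorem good_iff (ha : IsForm N a) (hb : IsBasis N a Ω₁ Ω₂) {g : SL(2, ℤ)} (hg : InG N g) {X : ℝ} :
    Good a Ω₁ Ω₂ g X ↔ |L₁ Ω₁ Ω₂ (Hs a g)| ≤ X ∧ |L₂ Ω₂ (Hs a g)| ≤ X := by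
  constructor
  · exact of_coord ha hb hg
  · rintro ⟨h1, h2⟩ m n hmn
    have hH : Hs a g = (m : ℂ) * Ω₁ + (n : ℂ) * Ω₂ := hmn
    rw [hH, L₁_apply hb] at h1
    rw [hH, L₂_apply hb] at h2
    exact ⟨h1, h2⟩

/-- an integer in `[-m, m]` as an element of `Fin (2 m + 1)` -/
theorem finite_card (N : ℕ) : Finite (Sm N) ∧ Nat.card (Sm N) ≤ (2 * N ^ 2 + 1) ^ 4 := by
  classical
  set I : Finset ℤ := Icc (-((N : ℤ) ^ 2)) ((N : ℤ) ^ 2) with hI
  have hIc : I.card = 2 * N ^ 2 + 1 := by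
    rw [hI, Int.card_Icc]
    have : ((N : ℤ) ^ 2 + 1 - -((N : ℤ) ^ 2)) = ((2 * N ^ 2 + 1 : ℕ) : ℤ) := by
      push_cast
      ring
    rw [this, Int.toNat_natCast]
  have hmem : ∀ (g : Sm N) (i j : Fin 2), g.1 i j ∈ I := by
    intro g i j
    rw [hI, mem_Icc, ← abs_le]
    exact g.2.2 i j
  set f : Sm N → I × I × I × I := fun g => (⟨g.1 0 0, hmem g 0 0⟩, ⟨g.1 0 1, hmem g 0 1⟩,
    ⟨g.1 1 0, hmem g 1 0⟩, ⟨g.1 1 1, hmem g 1 1⟩) with hf
  have hinj : Function.Injective f := by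
    intro g h hgh
    simp only [hf, Prod.mk.injEq, Subtype.mk.injEq] at hgh
    apply Subtype.ext
    ext i j
    fin_cases i <;> fin_cases j
    · exact hgh.1
    · exact hgh.2.1
    · exact hgh.2.2.1
    · exact hgh.2.2.2
  refine ⟨Finite.of_injective f hinj, ?_⟩
  refine (Nat.card_le_card_of_injective f hinj).trans ?_
  rw [Nat.card_prod, Nat.card_prod, Nat.card_prod, Nat.card_eq_fintype_card, Fintype.card_coe, hIc]
  apply le_of_eq
  ring

theorem prd_G {n : ℕ} (w : Fin n → Sm N) : InG N (prd w) := by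
  unfold prd
  have : ∀ l : List (SL(2, ℤ)), (∀ g ∈ l, InG N g) → InG N l.prod := by
    intro l
    induction l with
    | nil => intro _; exact inG_one
    | cons g l ih =>
      intro h
      rw [List.prod_cons]
      exact (h g (by simp)).mul (ih fun x hx => h x (by simp [hx]))
  refine this _ fun g hg => ?_
  rw [List.mem_ofFn] at hg
  obtain ⟨i, rfl⟩ := hg
  exact (w i).2.1

theorem prd_map {φ : SL(2, ℤ) → ℝ} (h : IsCuspHom N φ) : ∀ {n : ℕ} (w : Fin n → Sm N),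
    φ (prd w) = ∑ i, φ (w i).1 := by
  intro n
  induction n with
  | zero =>
    intro w
    have h1 : φ 1 = 0 := h.zero_of_lower (by simp)
    simpa [prd] using h1
  | succ n ih =>
    intro w
    have e : prd w = (w 0).1 * prd (fun i : Fin n => w i.succ) := by
      unfold prd
      rw [List.ofFn_succ, List.prod_cons]
    rw [e, h.map_mul _ _ (w 0).2.1 (prd_G _), ih, Fin.sum_univ_succ]

theorem sm_inv {g : SL(2, ℤ)} (hg : InG N g ∧ Bounded ((N : ℤ) ^ 2) g) :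
    InG N g⁻¹ ∧ Bounded ((N : ℤ) ^ 2) g⁻¹ := by
  refine ⟨hg.1.inv, fun i j => ?_⟩
  fin_cases i <;> fin_cases j
  · change |g⁻¹ 0 0| ≤ _
    rw [inv00]; exact hg.2 1 1
  · change |g⁻¹ 0 1| ≤ _
    rw [inv01, abs_neg]; exact hg.2 0 1
  · change |g⁻¹ 1 0| ≤ _
    rw [inv10, abs_neg]; exact hg.2 1 0
  · change |g⁻¹ 1 1| ≤ _
    rw [inv11]; exact hg.2 0 0

/-- one coordinate: a small proportion of the random products controls all small matrices -/
theorem one {φ : SL(2, ℤ) → ℝ} (h : IsCuspHom N φ) (hN : 1 ≤ N) {D n : ℕ}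
    (hn : 162 * N ^ (2 * D + 8) ≤ n) {T : ℝ}
    (hP : (Nat.card (Fin n → Sm N) : ℝ) ≤
      (N : ℝ) ^ D * (Nat.card {w : Fin n → Sm N // |φ (prd w)| ≤ T} : ℝ))
    {g : SL(2, ℤ)} (hg : InG N g ∧ Bounded ((N : ℤ) ^ 2) g) : |φ g| ≤ T := by
  classical
  by_contra hcon
  push Not at hcon
  obtain ⟨hfin, hcard⟩ := finite_card N
  have := Fintype.ofFinite (Sm N)
  have hne : Nonempty (Sm N) := ⟨⟨g, hg⟩⟩
  have hginv := sm_inv hg
  have hT0 : 0 ≤ T := by
    by_contra hT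
    push Not at hT
    have h0 : Nat.card {w : Fin n → Sm N // |φ (prd w)| ≤ T} = 0 := by
      rw [Nat.card_eq_zero]
      left
      refine ⟨fun w => ?_⟩
      have := abs_nonneg (φ (prd w.1))
      linarith [w.2]
    rw [h0] at hP
    simp only [Nat.cast_zero, mul_zero] at hP
    have h1 : 0 < Nat.card (Fin n → Sm N) := Nat.card_pos
    have h2 : (0 : ℝ) < (Nat.card (Fin n → Sm N) : ℝ) := by exact_mod_cast h1
    linarith
  have hinv : φ g⁻¹ = -φ g := by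
    have h1 : φ (g * g⁻¹) = φ g + φ g⁻¹ := h.map_mul _ _ hg.1 hginv.1
    rw [mul_inv_cancel, h.zero_of_lower (by simp)] at h1
    linarith
  have key : ∀ (M : ℝ) (v₀ v₁ : Sm N), T < M → φ v₀.1 = M → φ v₁.1 = -M → False := by
    intro M v₀ v₁ hM h0 h1
    have h01 : v₀ ≠ v₁ := by
      rintro rfl
      rw [h0] at h1
      linarith
    have hA := anti (φ := fun v : Sm N => φ v.1) hM h01 h0 h1 n
    have e : ∀ w : Fin n → Sm N, ∑ i, (fun v : Sm N => φ v.1) (w i) = φ (prd w) := fun w =>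
      (prd_map h w).symm
    simp only [prd_map h] at hP
    set V : ℝ := (Fintype.card (Sm N) : ℝ) with hV
    have hVN : V ≤ 81 * (N : ℝ) ^ 8 := by
      rw [Nat.card_eq_fintype_card] at hcard
      have h3 : V ≤ ((2 * N ^ 2 + 1 : ℕ) : ℝ) ^ 4 := by
        rw [hV]
        exact_mod_cast hcard
      have h4 : ((2 * N ^ 2 + 1 : ℕ) : ℝ) ≤ 3 * (N : ℝ) ^ 2 := by
        have : (1 : ℝ) ≤ N := by exact_mod_cast hN
        push_cast
        nlinarith
      calc V ≤ ((2 * N ^ 2 + 1 : ℕ) : ℝ) ^ 4 := h3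
        _ ≤ (3 * (N : ℝ) ^ 2) ^ 4 := pow_le_pow_left₀ (by positivity) h4 _
        _ = 81 * (N : ℝ) ^ 8 := by ring
    have hV0 : 0 < V := by
      rw [hV]
      exact_mod_cast Fintype.card_pos
    have hcw : (Nat.card (Fin n → Sm N) : ℝ) = V ^ n := by
      rw [Nat.card_eq_fintype_card, Fintype.card_fun, Fintype.card_fin]
      push_cast
      rfl
    rw [hcw] at hP
    have hN0 : (0 : ℝ) < N := by exact_mod_cast hN
    set q : ℝ := Real.sqrt (1 + n * (1 / (2 * V))) with hq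
    have hq0 : 0 < q := Real.sqrt_pos.2 (by positivity)
    have h2 : V ^ n ≤ (N : ℝ) ^ D * (V ^ n / q) :=
      hP.trans (mul_le_mul_of_nonneg_left hA (by positivity))
    have h3 : q ≤ (N : ℝ) ^ D := by
      have h4 : V ^ n * q ≤ V ^ n * (N : ℝ) ^ D := by
        calc V ^ n * q ≤ ((N : ℝ) ^ D * (V ^ n / q)) * q :=
              mul_le_mul_of_nonneg_right h2 hq0.le
          _ = V ^ n * (N : ℝ) ^ D := by field_simp
      exact le_of_mul_le_mul_left h4 (by positivity)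
    have h4 : 1 + n * (1 / (2 * V)) ≤ (N : ℝ) ^ (2 * D) := by
      have h5 : q ^ 2 ≤ ((N : ℝ) ^ D) ^ 2 := pow_le_pow_left₀ hq0.le h3 2
      rw [hq, Real.sq_sqrt (by positivity), ← pow_mul, mul_comm D 2] at h5
      exact h5
    have h5 : (N : ℝ) ^ (2 * D) ≤ n * (1 / (2 * V)) := by
      rw [mul_one_div, le_div_iff₀ (by positivity)]
      have h6 : (162 * (N : ℝ) ^ (2 * D + 8)) ≤ n := by exact_mod_cast hn
      calc (N : ℝ) ^ (2 * D) * (2 * V) ≤ (N : ℝ) ^ (2 * D) * (2 * (81 * (N : ℝ) ^ 8)) := by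
            gcongr
        _ = 162 * (N : ℝ) ^ (2 * D + 8) := by ring
        _ ≤ n := h6
    linarith
  rcases le_total 0 (φ g) with h0 | h0
  · rw [abs_of_nonneg h0] at hcon
    exact key (φ g) ⟨g, hg⟩ ⟨g⁻¹, hginv⟩ hcon rfl hinv
  · rw [abs_of_nonpos h0] at hcon
    exact key (-φ g) ⟨g⁻¹, hginv⟩ ⟨g, hg⟩ hcon hinv (by simp)

/-- **Level by level**: if the coordinates of `H` are at most `T` for a proportion `N ^ (-D)` of the
products of `n ≥ 162 N ^ (2 D + 8)` small matrices, then they are at most `T` for all small matrices. -/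
theorem level (hN : 1 ≤ N) (ha : IsForm N a) (hb : IsBasis N a Ω₁ Ω₂) {D n : ℕ}
    (hn : 162 * N ^ (2 * D + 8) ≤ n) {T : ℝ}
    (hP : (Nat.card (Fin n → Sm N) : ℝ) ≤
      (N : ℝ) ^ D * (Nat.card {w : Fin n → Sm N // Good a Ω₁ Ω₂ (prd w) T} : ℝ))
    {g : SL(2, ℤ)} (hg : InG N g ∧ Bounded ((N : ℤ) ^ 2) g) : Good a Ω₁ Ω₂ g T := by
  classical
  obtain ⟨hfin, -⟩ := finite_card N
  rw [good_iff ha hb hg.1]
  have hle : ∀ (L : ℂ →ₗ[ℝ] ℝ), (∀ w : Fin n → Sm N, Good a Ω₁ Ω₂ (prd w) T →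
      |L (Hs a (prd w))| ≤ T) → |L (Hs a g)| ≤ T := by
    intro L hL
    refine one (isCuspHom ha L) hN hn (hP.trans ?_) hg
    refine mul_le_mul_of_nonneg_left ?_ (by positivity)
    exact_mod_cast Nat.card_le_card_of_injective
      (fun w : {w : Fin n → Sm N // Good a Ω₁ Ω₂ (prd w) T} =>
        (⟨w.1, hL w.1 w.2⟩ : {w : Fin n → Sm N // |L (Hs a (prd w))| ≤ T}))
      (fun x y hxy => Subtype.ext (by simpa using hxy))
  exact ⟨hle _ fun w hw => ((good_iff ha hb (prd_G w)).1 hw).1,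
    hle _ fun w hw => ((good_iff ha hb (prd_G w)).1 hw).2⟩

/-- The converse bound. -/
theorem level_conv (ha : IsForm N a) (hb : IsBasis N a Ω₁ Ω₂) {n : ℕ} {T : ℝ}
    (h : ∀ g : SL(2, ℤ), InG N g → Bounded ((N : ℤ) ^ 2) g → Good a Ω₁ Ω₂ g T)
    (w : Fin n → Sm N) : Good a Ω₁ Ω₂ (prd w) (n * T) := by
  rw [good_iff ha hb (prd_G w)]
  have hle : ∀ (L : ℂ →ₗ[ℝ] ℝ), (∀ g : SL(2, ℤ), InG N g → Bounded ((N : ℤ) ^ 2) g →
      |L (Hs a g)| ≤ T) → |L (Hs a (prd w))| ≤ n * T := by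
    intro L hL
    have e := prd_map (isCuspHom ha L) w
    rw [e]
    refine (abs_sum_le_sum_abs _ _).trans ?_
    refine (sum_le_card_nsmul _ _ T fun i _ => hL _ (w i).2.1 (w i).2.2).trans ?_
    rw [card_univ, Fintype.card_fin, nsmul_eq_mul]
  exact ⟨hle _ fun g h1 h2 => ((good_iff ha hb h1).1 (h g h1 h2)).1,
    hle _ fun g h1 h2 => ((good_iff ha hb h1).1 (h g h1 h2)).2⟩

end Pool.Agent.Q245.Rw
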